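import Pool.Agent.Y403.OA.Src

/-!
# The degrees of the graphs of the reduction
-/

set_option autoImplicit false

namespace Pool.Agent.Y403.OA

open Pool.Agent.NPC Pool.Agent.NPC.R671 Pool.Agent.H671R2.Ord Lb

theorem base_deg {φ : F3} (hb : Bounded3 φ) (v : Lb)
    (hv : valid (sp φ).flatten.length (sp φ).length (lit (sp φ)) v = true) :
    ∃ S : Finset Lb, S.card ≤ 5 ∧ ∀ z, valid (sp φ).flatten.length (sp φ).length
      (lit (sp φ)) z = true → adj (lit (sp φ)) v z = true → z ∈ S := by
  classical
  have hlit : ∀ j k l, lit (sp φ) j k = some l → k < (sp φ).flatten.length :=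
    fun j k l h => lit_lt h
  cases v with
  | L i s =>
    have hi : i < (sp φ).flatten.length := by simpa [valid] using hv
    refine ⟨_, ?_, fun z h1 h2 => (nb_L s hi hlit z).2 ⟨h1, h2⟩⟩
    refine (Finset.card_union_le _ _).trans ?_
    rw [Finset.card_singleton]
    have h1 := occ_le hb (sp φ).length (sp φ).flatten.length i s
    have h2 : (((Finset.range (sp φ).length ×ˢ Finset.range (sp φ).flatten.length).filter
      (fun x => lit (sp φ) x.1 x.2 = some (i, s))).biUnion
        (fun x => ({p x.1 x.2, r x.1 x.2} : Finset Lb))).card ≤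
        ((Finset.range (sp φ).length ×ˢ Finset.range (sp φ).flatten.length).filter
      (fun x => lit (sp φ) x.1 x.2 = some (i, s))).card * 2 :=
      Finset.card_biUnion_le_card_mul _ _ _ (fun x _ => Finset.card_le_two)
    omega
  | C j =>
    have hj : j < (sp φ).length := by simpa [valid] using hv
    refine ⟨_, ?_, fun z h1 h2 => (nb_C hj hlit z).2 ⟨h1, h2⟩⟩
    refine (Finset.card_union_le _ _).trans ?_
    have h1 : ({T j false, T j true} : Finset Lb).card ≤ 2 := Finset.card_le_two
    have h2 : (((Finset.range (sp φ).flatten.length).filter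
      (fun k => occ (sp φ).flatten.length (sp φ).length (lit (sp φ)) j k = true)).image
        (fun k => P j k)).card ≤ 3 := by
      refine Finset.card_image_le.trans ?_
      have h3 : (Finset.range (sp φ).flatten.length).filter
          (fun k => occ (sp φ).flatten.length (sp φ).length (lit (sp φ)) j k = true) ⊆
          Finset.range 3 := by
        intro k hk
        rw [Finset.mem_filter] at hk
        obtain ⟨_, i, s, hl, _⟩ := occ_lit hk.2
        rw [Finset.mem_range]
        exact (lit_cases hb hl).1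
      exact (Finset.card_le_card h3).trans (by simp)
    omega
  | T j b =>
    have hj : j < (sp φ).length := by simpa [valid] using hv
    exact ⟨_, Finset.card_le_two.trans (by norm_num),
      fun z h1 h2 => (nb_T b hj z).2 ⟨h1, h2⟩⟩
  | P j k =>
    have hv' : occ (sp φ).flatten.length (sp φ).length (lit (sp φ)) j k = true := hv
    exact ⟨_, Finset.card_le_three.trans (by norm_num),
      fun z h1 h2 => (nb_P hv' z).2 ⟨h1, h2⟩⟩
  | H j k b =>
    have hv' : occ (sp φ).flatten.length (sp φ).length (lit (sp φ)) j k = true := hv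
    exact ⟨_, Finset.card_le_four.trans (by norm_num),
      fun z h1 h2 => (nb_H b hv' z).2 ⟨h1, h2⟩⟩
  | p j k =>
    have hv' : occ (sp φ).flatten.length (sp φ).length (lit (sp φ)) j k = true := hv
    obtain ⟨_, i, s, hl, _⟩ := occ_lit hv'
    exact ⟨_, Finset.card_le_four.trans (by norm_num),
      fun z h1 h2 => (nb_p hl hv' z).2 ⟨h1, h2⟩⟩
  | q j k =>
    have hv' : occ (sp φ).flatten.length (sp φ).length (lit (sp φ)) j k = true := hv
    exact ⟨_, Finset.card_le_four.trans (by norm_num),
      fun z h1 h2 => (nb_q hv' z).2 ⟨h1, h2⟩⟩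
  | r j k =>
    have hv' : occ (sp φ).flatten.length (sp φ).length (lit (sp φ)) j k = true := hv
    obtain ⟨_, i, s, hl, _⟩ := occ_lit hv'
    exact ⟨_, Finset.card_le_four.trans (by norm_num),
      fun z h1 h2 => (nb_r hl hv' z).2 ⟨h1, h2⟩⟩

/-- All degrees are at most six. -/
theorem deg_gr {φ : F3} (hb : Bounded3 φ)
    (i : Fin (vX (sp φ) (sp φ).flatten.length (sp φ).length).length) :
    ((gr (sp φ)).neighborSet i).ncard ≤ 6 := by
  classical
  obtain ⟨e, he⟩ := gr_equiv (sp φ)
  have hinj : Function.Injective (fun j => (((e j).1.1, (e j).2) : Lb × Fin 5)) := by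
    intro a b hab
    simp only [Prod.mk.injEq] at hab
    exact e.injective (Prod.ext (Subtype.ext hab.1) hab.2)
  rw [← Set.ncard_image_of_injective _ hinj]
  rcases hx : e i with ⟨⟨v, hv⟩, a⟩
  by_cases ha : a = 0
  · obtain ⟨S, hS, hS'⟩ := base_deg hb v hv
    have hsub : (fun j => (((e j).1.1, (e j).2) : Lb × Fin 5)) '' ((gr (sp φ)).neighborSet i) ⊆
        ((S.image (fun z => ((z, 0) : Lb × Fin 5)) ∪ {(v, 1)} : Finset (Lb × Fin 5)) :
          Set (Lb × Fin 5)) := by
      rintro _ ⟨j, hj, rfl⟩
      have h1 : (gr (sp φ)).Adj i j := hj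
      rw [he, hx, ha] at h1
      rw [Finset.mem_coe, Finset.mem_union, Finset.mem_image, Finset.mem_singleton]
      rcases h1 with ⟨_, h2, h3⟩ | ⟨h2, h3⟩
      · left
        exact ⟨(e j).1.1, hS' _ (e j).1.2 h3, Prod.ext rfl h2.symm⟩
      · right
        have h4 : (e j).2 = 1 := by
          have : ∀ b : Fin 5, pk 0 b = true → b = 1 := by decide
          exact this _ h3
        simp only at h2
        exact Prod.ext (congrArg Subtype.val h2).symm h4
    refine (Set.ncard_le_ncard hsub (Finset.finite_toSet _)).trans ?_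
    rw [Set.ncard_coe_finset]
    refine (Finset.card_union_le _ _).trans ?_
    have := (Finset.card_image_le (s := S) (f := fun z => ((z, 0) : Lb × Fin 5)))
    rw [Finset.card_singleton]
    omega
  · have hsub : (fun j => (((e j).1.1, (e j).2) : Lb × Fin 5)) '' ((gr (sp φ)).neighborSet i) ⊆
        (((Finset.univ : Finset (Fin 5)).image (fun b => ((v, b) : Lb × Fin 5)) :
          Finset (Lb × Fin 5)) : Set (Lb × Fin 5)) := by
      rintro _ ⟨j, hj, rfl⟩
      have h1 : (gr (sp φ)).Adj i j := hj
      rw [he, hx] at h1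
      rw [Finset.mem_coe, Finset.mem_image]
      rcases h1 with ⟨h2, _, _⟩ | ⟨h2, h3⟩
      · exact absurd h2 ha
      · simp only at h2
        exact ⟨(e j).2, Finset.mem_univ _, Prod.ext (congrArg Subtype.val h2) rfl⟩
    refine (Set.ncard_le_ncard hsub (Finset.finite_toSet _)).trans ?_
    rw [Set.ncard_coe_finset]
    refine Finset.card_image_le.trans ?_
    simp

/-- Every language in `NP` is reduced in polynomial time to graphs of maximum degree at most
six, such that Type-A orders and Type-B orders exist for the same instances. -/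
theorem hard6 (L : Set (List Bool)) (hL : InNP L) :
    ∃ f : List Bool → List Bool, PolyTime f ∧ ∀ w, ∃ (n : ℕ) (G : SimpleGraph (Fin n)),
      f w = bits (adjMatrix G) ∧ (∀ v, (G.neighborSet v).ncard ≤ 6) ∧
        (w ∈ L ↔ ∃ pos, IsTypeA G pos) ∧ (w ∈ L ↔ ∃ pos, IsTypeB G pos) := by
  obtain ⟨g, hg, hg1, hg2⟩ := hard_src L hL
  refine ⟨fun w => bits (adjMatrix (gr (g w))), PC.toPolyTime_bits gr_poly g hg, fun w => ?_⟩
  obtain ⟨φ, hb, hφ⟩ := hg1 w
  refine ⟨_, gr (g w), rfl, ?_, by rw [hg2 w, typeA_iff], by rw [hg2 w, typeB_iff]⟩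
  rw [hφ]
  exact fun v => deg_gr hb v

end Pool.Agent.Y403.OA
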