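import Pool.Agent.H671R2.OrdFinal

/-!
# Satisfiability with few occurrences of every literal
-/

set_option autoImplicit false

namespace Pool.Agent.Y403.OA

open Pool.Agent.NPC Pool.Agent.NPC.R671 Pool.Agent.H671R2.Ord

/-- formulas with three literals per clause -/
abbrev F3 : Type := List (Lit ℕ × Lit ℕ × Lit ℕ)

/-- the number of the copies of a variable -/
def N (φ : F3) : ℕ := 3 * φ.length

/-- a default clause -/
def d0 : Lit ℕ × Lit ℕ × Lit ℕ := ((true, 0), (true, 0), (true, 0))

/-- the new version of a clause -/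
def clA (φ : F3) (t : ℕ) : List (Bool × ℕ) :=
  [((φ.getD t d0).1.1, (φ.getD t d0).1.2 * N φ + 3 * t),
   ((φ.getD t d0).2.1.1, (φ.getD t d0).2.1.2 * N φ + (3 * t + 1)),
   ((φ.getD t d0).2.2.1, (φ.getD t d0).2.2.2 * N φ + (3 * t + 2))]

/-- the implication from a copy of a variable to the next copy -/
def clB (φ : F3) (u : ℕ) : List (Bool × ℕ) :=
  [(false, u), (true, (u / N φ) * N φ + (u % N φ + 1) % N φ)]

/-- the clauses of the new formula -/
def cls (φ : F3) (t : ℕ) : List (Bool × ℕ) :=
  if t < φ.length then clA φ t else clB φ (t - φ.length)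

/-- the new formula -/
def sp (φ : F3) : Φ :=
  (List.range (φ.length + N φ * N φ)).map (fun t => cls φ t)

theorem sp_length (φ : F3) : (sp φ).length = φ.length + N φ * N φ := by
  simp [sp]

theorem sp_getD (φ : F3) (j : ℕ) :
    (sp φ).getD j [] = if j < φ.length + N φ * N φ then cls φ j else [] := by
  unfold sp
  rw [List.getD_eq_getElem?_getD, List.getElem?_map]
  split_ifs with h
  · rw [List.getElem?_range h]
    rfl
  · rw [List.getElem?_eq_none (by simp; omega)]
    rfl

theorem cls_ne (φ : F3) (t : ℕ) : cls φ t ≠ [] := by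
  unfold cls clA clB
  split_ifs <;> simp

theorem flat_le (φ : F3) : N φ * N φ ≤ (sp φ).flatten.length := by
  have key : ∀ L : List (List (Bool × ℕ)), (∀ c ∈ L, c ≠ []) → L.length ≤ L.flatten.length := by
    intro L
    induction L with
    | nil => intro _; simp
    | cons c L ih =>
      intro h
      have h1 := ih (fun c hc => h c (List.mem_cons_of_mem _ hc))
      have h2 : 0 < c.length := List.length_pos_iff.2 (h c List.mem_cons_self)
      rw [List.flatten_cons, List.length_append, List.length_cons]
      omega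
  have h := key (sp φ) (by
    intro c hc
    unfold sp at hc
    rw [List.mem_map] at hc
    obtain ⟨t, _, rfl⟩ := hc
    exact cls_ne φ t)
  rw [sp_length] at h
  omega

/-- the literals of a formula -/
theorem lit_cases {φ : F3} (hb : Bounded3 φ) {j k : ℕ} {l : ℕ × Bool}
    (h : lit (sp φ) j k = some l) : k < 3 ∧ l.1 < N φ * N φ ∧
      ((j < φ.length ∧ 3 * j + k = l.1 % N φ) ∨
      (l.2 = false ∧ k = 0 ∧ j = φ.length + l.1) ∨
      (l.2 = true ∧ k = 1 ∧ φ.length ≤ j ∧ j - φ.length < N φ * N φ ∧
        l.1 = ((j - φ.length) / N φ) * N φ + ((j - φ.length) % N φ + 1) % N φ)) := by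
  unfold lit at h
  rw [sp_getD] at h
  split_ifs at h with h1
  · rw [Option.map_eq_some_iff] at h
    obtain ⟨l', hl', rfl⟩ := h
    unfold cls at hl'
    split_ifs at hl' with h2
    · have hmem : φ.getD j d0 ∈ φ := by
        rw [List.getD_eq_getElem _ _ h2]
        exact List.getElem_mem h2
      obtain ⟨b1, b2, b3⟩ := hb _ hmem
      have key : ∀ v r : ℕ, v < 3 * φ.length → r < 3 * φ.length →
          v * N φ + r < N φ * N φ ∧ (v * N φ + r) % N φ = r := by
        intro v r hv hr
        unfold N
        constructor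
        · nlinarith
        · rw [Nat.mul_add_mod_self_right, Nat.mod_eq_of_lt hr]
      unfold clA at hl'
      match k, hl' with
      | 0, hl' =>
        simp only [List.getElem?_cons_zero, Option.some.injEq] at hl'
        subst hl'
        obtain ⟨k1, k2⟩ := key _ (3 * j) b1 (by omega)
        exact ⟨by norm_num, k1, Or.inl ⟨h2, by rw [k2]; rfl⟩⟩
      | 1, hl' =>
        simp only [List.getElem?_cons_succ, List.getElem?_cons_zero, Option.some.injEq] at hl'
        subst hl'
        obtain ⟨k1, k2⟩ := key _ (3 * j + 1) b2 (by omega)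
        exact ⟨by norm_num, k1, Or.inl ⟨h2, by rw [k2]⟩⟩
      | 2, hl' =>
        simp only [List.getElem?_cons_succ, List.getElem?_cons_zero, Option.some.injEq] at hl'
        subst hl'
        obtain ⟨k1, k2⟩ := key _ (3 * j + 2) b3 (by omega)
        exact ⟨by norm_num, k1, Or.inl ⟨h2, by rw [k2]⟩⟩
      | (k + 3), hl' => simp at hl'
    · have hu : j - φ.length < N φ * N φ := by omega
      have hN : 0 < N φ := by
        rcases Nat.eq_zero_or_pos (N φ) with h0 | h0
        · rw [h0] at hu; omega
        · exact h0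
      unfold clB at hl'
      match k, hl' with
      | 0, hl' =>
        simp only [List.getElem?_cons_zero, Option.some.injEq] at hl'
        subst hl'
        exact ⟨by norm_num, hu, Or.inr (Or.inl ⟨rfl, rfl, by simp only; omega⟩)⟩
      | 1, hl' =>
        simp only [List.getElem?_cons_succ, List.getElem?_cons_zero, Option.some.injEq] at hl'
        subst hl'
        refine ⟨by norm_num, ?_, Or.inr (Or.inr ⟨rfl, rfl, by omega, hu, rfl⟩)⟩
        have h3 : (j - φ.length) / N φ < N φ := Nat.div_lt_of_lt_mul hu
        have h4 : ((j - φ.length) % N φ + 1) % N φ < N φ := Nat.mod_lt _ hN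
        simp only
        nlinarith
      | (k + 2), hl' => simp at hl'
  · simp at h

/-- the literal `l` occurs at most twice -/
theorem occ_le {φ : F3} (hb : Bounded3 φ) (m n : ℕ) (i : ℕ) (s : Bool) :
    ((Finset.range m ×ˢ Finset.range n).filter
      (fun x => lit (sp φ) x.1 x.2 = some (i, s))).card ≤ 2 := by
  classical
  have hsub : (Finset.range m ×ˢ Finset.range n).filter
      (fun x => lit (sp φ) x.1 x.2 = some (i, s)) ⊆
      {((i % N φ) / 3, (i % N φ) % 3), if s = false then (φ.length + i, 0) else
        (φ.length + ((i / N φ) * N φ + (i % N φ + N φ - 1) % N φ), 1)} := by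
    rintro ⟨j, k⟩ hx
    rw [Finset.mem_filter] at hx
    obtain ⟨h1, h2, h3⟩ := lit_cases hb hx.2
    simp only at h1 h2 h3
    rw [Finset.mem_insert, Finset.mem_singleton]
    rcases h3 with ⟨h4, h5⟩ | ⟨h4, h5, h6⟩ | ⟨h4, h5, h6, h7, h8⟩
    · left
      rw [← h5]
      ext
      · simp only; omega
      · simp only; omega
    · right
      rw [if_pos h4, h5, h6]
    · right
      rw [if_neg (by rw [h4]; decide), h5]
      have hN : 0 < N φ := by
        rcases Nat.eq_zero_or_pos (N φ) with h0 | h0
        · rw [h0] at h7; omega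
        · exact h0
      have h9 : i / N φ = (j - φ.length) / N φ := by
        rw [h8, Nat.mul_comm, Nat.mul_add_div hN, Nat.div_eq_of_lt (Nat.mod_lt _ hN), Nat.add_zero]
      have h10 : i % N φ = ((j - φ.length) % N φ + 1) % N φ := by
        rw [h8, Nat.mul_add_mod_self_right, Nat.mod_mod]
      rw [h9, h10]
      set u := j - φ.length with hu
      have h11 : ((u % N φ + 1) % N φ + N φ - 1) % N φ = u % N φ := by
        have hlt := Nat.mod_lt u hN
        rcases Nat.lt_or_ge (u % N φ + 1) (N φ) with h | h
        · rw [Nat.mod_eq_of_lt h, show u % N φ + 1 + N φ - 1 = u % N φ + N φ by omega,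
            Nat.add_mod_right, Nat.mod_mod]
        · have : u % N φ + 1 = N φ := by omega
          rw [this, Nat.mod_self, Nat.zero_add, Nat.mod_eq_of_lt (by omega)]
          omega
      rw [h11]
      have h12 : u / N φ * N φ + u % N φ = u := by
        rw [Nat.mul_comm]; exact Nat.div_add_mod _ _
      rw [h12]
      ext
      · simp only; omega
      · rfl
  exact (Finset.card_le_card hsub).trans (Finset.card_le_two)

theorem step {φ : F3} {σ : ℕ → Bool}
    (h : ∀ c ∈ sp φ, ∃ l ∈ c, l.2 < (sp φ).flatten.length ∧ σ l.2 = l.1) {v p : ℕ}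
    (hv : v < N φ) (hp : p < N φ) (hσ : σ (v * N φ + p) = true) :
    σ (v * N φ + (p + 1) % N φ) = true := by
  have hN : 0 < N φ := by omega
  have hu : v * N φ + p < N φ * N φ := by nlinarith
  have hmem : clB φ (v * N φ + p) ∈ sp φ := by
    unfold sp
    rw [List.mem_map]
    refine ⟨φ.length + (v * N φ + p), ?_, ?_⟩
    · rw [List.mem_range]; omega
    · unfold cls
      rw [if_neg (by omega)]
      congr 1
      omega
  obtain ⟨l, hl, _, h3⟩ := h _ hmem
  have e1 : (v * N φ + p) / N φ = v := by
    rw [Nat.mul_comm, Nat.mul_add_div hN, Nat.div_eq_of_lt hp, Nat.add_zero]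
  have e2 : (v * N φ + p) % N φ = p := by
    rw [Nat.mul_add_mod_self_right, Nat.mod_eq_of_lt hp]
  unfold clB at hl
  rw [e1, e2] at hl
  simp only [List.mem_cons, List.not_mem_nil, or_false] at hl
  rcases hl with rfl | rfl
  · simp only at h3
    rw [hσ] at h3
    exact absurd h3 (by decide)
  · exact h3

theorem allEq {φ : F3} {σ : ℕ → Bool}
    (h : ∀ c ∈ sp φ, ∃ l ∈ c, l.2 < (sp φ).flatten.length ∧ σ l.2 = l.1) {v p q : ℕ}
    (hv : v < N φ) (hp : p < N φ) (hq : q < N φ) (hσ : σ (v * N φ + p) = true) :
    σ (v * N φ + q) = true := by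
  have hN : 0 < N φ := by omega
  have key : ∀ t, σ (v * N φ + (p + t) % N φ) = true := by
    intro t
    induction t with
    | zero => rw [Nat.add_zero, Nat.mod_eq_of_lt hp]; exact hσ
    | succ t ih =>
      have := step h hv (Nat.mod_lt (p + t) hN) ih
      rw [Nat.mod_add_mod] at this
      exact this
  have h1 := key (q + N φ - p)
  rw [show p + (q + N φ - p) = q + N φ by omega, Nat.add_mod_right, Nat.mod_eq_of_lt hq] at h1
  exact h1

theorem sp_iff {φ : F3} (hb : Bounded3 φ) : SAT3 φ ↔ BSat (sp φ) := by
  have key : ∀ v r : ℕ, v < 3 * φ.length → r < 3 * φ.length →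
      v * N φ + r < N φ * N φ ∧ (v * N φ + r) / N φ = v := by
    intro v r hv hr
    unfold N
    constructor
    · nlinarith
    · rw [Nat.mul_comm, Nat.mul_add_div (by omega), Nat.div_eq_of_lt hr, Nat.add_zero]
  have hfl := flat_le φ
  unfold SAT3 Sat3V BSat
  constructor
  · rintro ⟨τ, hτ⟩
    refine ⟨fun x => τ (x / N φ), ?_⟩
    intro c hc
    unfold sp at hc
    rw [List.mem_map] at hc
    obtain ⟨t, ht, rfl⟩ := hc
    rw [List.mem_range] at ht
    unfold cls
    split_ifs with h1
    · have hmem : φ.getD t d0 ∈ φ := by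
        rw [List.getD_eq_getElem _ _ h1]
        exact List.getElem_mem h1
      obtain ⟨b1, b2, b3⟩ := hb _ hmem
      obtain ⟨k1, k1'⟩ := key _ (3 * t) b1 (by omega)
      obtain ⟨k2, k2'⟩ := key _ (3 * t + 1) b2 (by omega)
      obtain ⟨k3, k3'⟩ := key _ (3 * t + 2) b3 (by omega)
      rcases hτ _ hmem with h2 | h2 | h2
      · refine ⟨_, List.mem_cons_self, by simp only; omega, ?_⟩
        simp only
        rw [k1']
        exact h2
      · refine ⟨_, List.mem_cons_of_mem _ List.mem_cons_self, by simp only; omega, ?_⟩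
        simp only
        rw [k2']
        exact h2
      · refine ⟨_, List.mem_cons_of_mem _ (List.mem_cons_of_mem _ List.mem_cons_self),
          by simp only; omega, ?_⟩
        simp only
        rw [k3']
        exact h2
    · set u := t - φ.length with hu
      have hult : u < N φ * N φ := by omega
      have hN : 0 < N φ := by
        rcases Nat.eq_zero_or_pos (N φ) with h0 | h0
        · rw [h0] at hult; omega
        · exact h0
      have h3 : u / N φ < N φ := Nat.div_lt_of_lt_mul hult
      have h4 : (u % N φ + 1) % N φ < N φ := Nat.mod_lt _ hN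
      have h5 : (u / N φ * N φ + (u % N φ + 1) % N φ) / N φ = u / N φ := by
        rw [Nat.mul_comm, Nat.mul_add_div hN, Nat.div_eq_of_lt h4, Nat.add_zero]
      cases hτu : τ (u / N φ) with
      | false =>
        refine ⟨_, List.mem_cons_self, by simp only; omega, ?_⟩
        simp only
        exact hτu
      | true =>
        refine ⟨_, List.mem_cons_of_mem _ List.mem_cons_self, ?_, ?_⟩
        · simp only
          have : u / N φ * N φ + (u % N φ + 1) % N φ < N φ * N φ := by nlinarith
          omega
        · simp only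
          rw [h5]
          exact hτu
  · rintro ⟨σ, h⟩
    refine ⟨fun v => σ (v * N φ), ?_⟩
    intro c hc
    obtain ⟨t, ht, rfl⟩ := List.getElem_of_mem hc
    have hget : φ.getD t d0 = φ[t] := List.getD_eq_getElem _ _ ht
    obtain ⟨b1, b2, b3⟩ := hb _ hc
    have hmem : clA φ t ∈ sp φ := by
      unfold sp
      rw [List.mem_map]
      refine ⟨t, ?_, ?_⟩
      · rw [List.mem_range]; omega
      · unfold cls
        rw [if_pos ht]
    have conv : ∀ (v r : ℕ) (s : Bool), v < 3 * φ.length → r < 3 * φ.length →
        σ (v * N φ + r) = s → σ (v * N φ) = s := by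
      intro v r s hv hr hs
      cases s with
      | true => exact allEq (v := v) (p := r) (q := 0) h hv hr (by unfold N; omega) hs
      | false =>
        by_contra hcon
        have h1 : σ (v * N φ + 0) = true := by
          rw [Nat.add_zero]
          simpa using hcon
        have h2 := allEq (v := v) (p := 0) (q := r) h hv (by unfold N; omega) hr h1
        rw [hs] at h2
        exact absurd h2 (by decide)
    obtain ⟨l, hl, _, h3⟩ := h _ hmem
    unfold clA at hl
    rw [hget] at hl
    simp only [List.mem_cons, List.not_mem_nil, or_false] at hl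
    rcases hl with rfl | rfl | rfl
    · exact Or.inl (conv _ _ _ b1 (by omega) h3)
    · exact Or.inr (Or.inl (conv _ _ _ b2 (by omega) h3))
    · exact Or.inr (Or.inr (conv _ _ _ b3 (by omega) h3))

theorem uPoly_N : UPoly N := UPoly.mul (UPoly.const 3) (UPoly.length NPC.Poly.id)

@[fun_prop]
theorem poly_N : NPC.Poly N := uPoly_N.toPoly

theorem poly_cls : NPC.Poly (fun x : F3 × ℕ => cls x.1 x.2) := by
  unfold cls clA clB
  fun_prop

theorem poly_sp : NPC.Poly sp := by
  unfold sp
  exact NPC.Poly.map (F := fun φ t => cls φ t) (UPoly.range (UPoly.add (UPoly.length NPC.Poly.id)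
    (UPoly.mul uPoly_N uPoly_N))) poly_cls

/-- Satisfiability of formulas which arise by the construction is hard. -/
theorem hard_src : HardPr (fun ψ : Φ => ∃ φ, Bounded3 φ ∧ ψ = sp φ) BSat :=
  hardPr_SAT3b.trans poly_sp (fun φ h => ⟨φ, h.2.1, rfl⟩) (fun _ h => sp_iff h.2.1)

end Pool.Agent.Y403.OA
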